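import Mathlib

/-!
# `p`-metric mean dimension equals metric mean dimension for sofic actions

For every countable sofic group `Γ`, every sofic approximation `Σ`, every `1 ≤ p < ∞` and every
action of `Γ` by homeomorphisms on a compact metrizable space `X`, the `p`-metric mean dimension
`mdim_{Σ,M,p}(X,Γ)` equals the sofic metric mean dimension `mdim_{Σ,M}(X,Γ)`.
-/

namespace Pool.Agent.Results.MP_9d0111_an.PMetricEquality

open Filter Topology

universe u v

/-- `ρ` is a continuous pseudometric on the space `X`. -/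
structure IsContPseudometric {X : Type u} [TopologicalSpace X] (ρ : X → X → ℝ) : Prop where
  nonneg : ∀ x y, 0 ≤ ρ x y
  refl : ∀ x, ρ x x = 0
  symm : ∀ x y, ρ x y = ρ y x
  triangle : ∀ x y z, ρ x z ≤ ρ x y + ρ y z
  cont : Continuous (fun q : X × X => ρ q.1 q.2)

/-- `ρ` is dynamically generating for the action of `G`: for all `x ≠ y` some `s` has
`ρ (s x) (s y) > 0`. -/
def DynGenerating (G : Type v) {X : Type u} [SMul G X] (ρ : X → X → ℝ) : Prop :=
  ∀ x y : X, x ≠ y → ∃ s : G, 0 < ρ (s • x) (s • y)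

/-- The metric `ρ_p` on maps `{1,…,d} → X`, for real `p`. -/
noncomputable def rhoP {X : Type u} (ρ : X → X → ℝ) (p : ℝ) {d : ℕ} (φ ψ : Fin d → X) : ℝ :=
  ((1 / (d : ℝ)) * ∑ j, (ρ (φ j) (ψ j)) ^ p) ^ (1 / p)

/-- The metric `ρ_∞` on maps `{1,…,d} → X`. -/
noncomputable def rhoInf {X : Type u} (ρ : X → X → ℝ) {d : ℕ} (φ ψ : Fin d → X) : ℝ :=
  ⨆ j, ρ (φ j) (ψ j)

/-- A sofic approximation of the group `G`. -/
structure SoficApprox (G : Type v) [Group G] where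
  /-- the sizes `d_i` -/
  d : ℕ → ℕ
  /-- the maps `σ_i : G → Sym(d_i)` -/
  σ : ∀ i, G → Equiv.Perm (Fin (d i))
  d_tendsto : Tendsto d atTop atTop
  mul : ∀ s t : G, Tendsto (fun i => (1 / (d i : ℝ)) *
    (Nat.card {j : Fin (d i) // σ i (s * t) j = σ i s (σ i t j)} : ℝ)) atTop (𝓝 1)
  free : ∀ s : G, s ≠ 1 → Tendsto (fun i => (1 / (d i : ℝ)) *
    (Nat.card {j : Fin (d i) // σ i s j = j} : ℝ)) atTop (𝓝 0)

/-- `Map(ρ,F,δ,σ)`: the maps `φ : {1,…,d} → X` with `ρ_2(φ ∘ σ(s), s φ) ≤ δ` for all `s ∈ F`. -/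
def MapSet {G : Type v} {X : Type u} [SMul G X] (ρ : X → X → ℝ) (F : Finset G) (δ : ℝ) {d : ℕ}
    (σ : G → Equiv.Perm (Fin d)) : Set (Fin d → X) :=
  {φ | ∀ s ∈ F, rhoP ρ 2 (fun j => φ (σ s j)) (fun j => s • φ j) ≤ δ}

/-- The finite set `Z` is contained in `Y` and `ε`-separated for `θ`. -/
def IsSep {A : Type u} (θ : A → A → ℝ) (ε : ℝ) (Y : Set A) (Z : Finset A) : Prop :=
  (∀ z ∈ Z, z ∈ Y) ∧ ∀ z ∈ Z, ∀ w ∈ Z, z ≠ w → ε ≤ θ z w

/-- `N_ε(Y,θ)`: the largest cardinality (in `[0,∞]`) of an `ε`-separated subset of `Y`. -/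
noncomputable def sepNum {A : Type u} (θ : A → A → ℝ) (ε : ℝ) (Y : Set A) : ENNReal :=
  ⨆ (Z : Finset A) (_ : IsSep θ ε Y Z), (Z.card : ENNReal)

/-- The quantity `liminf_{ε→0} inf_{F,δ} limsup_i log N_ε(Map(ρ,F,δ,σ_i),θ) / (d_i log(1/ε))`
(with `log 0 = -∞`), for a family `θ` of functions on pairs of maps `{1,…,d} → X`. -/
noncomputable def mdimOf {G : Type v} [Group G] {X : Type u} [SMul G X] (S : SoficApprox G)
    (ρ : X → X → ℝ) (θ : ∀ d : ℕ, (Fin d → X) → (Fin d → X) → ℝ) : EReal :=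
  liminf (fun ε : ℝ => ⨅ (F : Finset G) (δ : ℝ) (_ : 0 < δ),
    limsup (fun i : ℕ => ENNReal.log (sepNum (θ (S.d i)) ε (MapSet ρ F δ (S.σ i))) /
      (((S.d i : ℝ) * Real.log (1 / ε) : ℝ) : EReal)) atTop) (𝓝[>] (0 : ℝ))

/-- `mdim_{Σ,M,p}(X,Γ)` for real `p`: the infimum over dynamically generating continuous
pseudometrics of `mdim_{Σ,p}(ρ)`. -/
noncomputable def mdimMP {G : Type v} [Group G] (S : SoficApprox G) (p : ℝ) (X : Type u)
    [TopologicalSpace X] [SMul G X] : EReal :=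
  ⨅ (ρ : X → X → ℝ) (_ : IsContPseudometric ρ ∧ DynGenerating G ρ),
    mdimOf S ρ (fun _ => rhoP ρ p)

/-- `mdim_{Σ,M}(X,Γ)`, the sofic metric mean dimension: the case `p = ∞`. -/
noncomputable def mdimMInf {G : Type v} [Group G] (S : SoficApprox G) (X : Type u)
    [TopologicalSpace X] [SMul G X] : EReal :=
  ⨅ (ρ : X → X → ℝ) (_ : IsContPseudometric ρ ∧ DynGenerating G ρ),
    mdimOf S ρ (fun _ => rhoInf ρ)

/-! ### Basic facts on `rhoP` and `rhoInf` -/

section basic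

variable {X : Type u} {ρ : X → X → ℝ}

lemma rhoP_nonneg (hρ : ∀ x y, 0 ≤ ρ x y) (p : ℝ) {d : ℕ} (φ ψ : Fin d → X) :
    0 ≤ rhoP ρ p φ ψ := by
  unfold rhoP
  apply Real.rpow_nonneg
  apply mul_nonneg (by positivity)
  exact Finset.sum_nonneg fun j _ => Real.rpow_nonneg (hρ _ _) _

lemma rhoP_self (hρ : ∀ x, ρ x x = 0) {p : ℝ} (hp : 1 ≤ p) {d : ℕ} (φ : Fin d → X) :
    rhoP ρ p φ φ = 0 := by
  have hp0 : p ≠ 0 := by linarith
  unfold rhoP
  simp only [hρ, Real.zero_rpow hp0, Finset.sum_const_zero, mul_zero]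
  exact Real.zero_rpow (one_div_ne_zero hp0)

lemma rhoP_symm (hρ : ∀ x y, ρ x y = ρ y x) {p : ℝ} {d : ℕ} (φ ψ : Fin d → X) :
    rhoP ρ p φ ψ = rhoP ρ p ψ φ := by
  unfold rhoP
  congr 2
  exact Finset.sum_congr rfl fun j _ => by rw [hρ]

lemma le_rhoInf {d : ℕ} (φ ψ : Fin d → X) (j : Fin d) :
    ρ (φ j) (ψ j) ≤ rhoInf ρ φ ψ := by
  unfold rhoInf
  exact le_ciSup (f := fun j => ρ (φ j) (ψ j)) (Set.finite_range _).bddAbove j

lemma rhoInf_nonneg (hρ : ∀ x y, 0 ≤ ρ x y) {d : ℕ} (φ ψ : Fin d → X) :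
    0 ≤ rhoInf ρ φ ψ := by
  unfold rhoInf
  exact Real.iSup_nonneg fun j => hρ _ _

lemma rhoP_le_of_forall_le (hρ : ∀ x y, 0 ≤ ρ x y) {p : ℝ} (hp : 1 ≤ p) {d : ℕ}
    (φ ψ : Fin d → X) {S : ℝ} (hS : 0 ≤ S) (h : ∀ j, ρ (φ j) (ψ j) ≤ S) :
    rhoP ρ p φ ψ ≤ S := by
  have hp0 : 0 < p := by linarith
  unfold rhoP
  have h1 : (1 / (d : ℝ)) * ∑ j, (ρ (φ j) (ψ j)) ^ p ≤ S ^ p := by
    rcases Nat.eq_zero_or_pos d with hd | hd
    · subst hd
      simp only [CharP.cast_eq_zero, div_zero, zero_mul]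
      exact Real.rpow_nonneg hS _
    · have h2 : ∑ j, (ρ (φ j) (ψ j)) ^ p ≤ ∑ _j : Fin d, S ^ p :=
        Finset.sum_le_sum fun j _ => Real.rpow_le_rpow (hρ _ _) (h j) hp0.le
      rw [Finset.sum_const, Finset.card_univ, Fintype.card_fin, nsmul_eq_mul] at h2
      have hd' : (0 : ℝ) < d := by exact_mod_cast hd
      rw [one_div, inv_mul_le_iff₀ hd']
      exact h2
  calc ((1 / (d : ℝ)) * ∑ j, (ρ (φ j) (ψ j)) ^ p) ^ (1 / p) ≤ (S ^ p) ^ (1 / p) := by
        apply Real.rpow_le_rpow _ h1 (by positivity)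
        apply mul_nonneg (by positivity)
        exact Finset.sum_nonneg fun j _ => Real.rpow_nonneg (hρ _ _) _
    _ = S := by
        rw [one_div, Real.rpow_rpow_inv hS hp0.ne']

lemma rhoP_le_rhoInf (hρ : ∀ x y, 0 ≤ ρ x y) {p : ℝ} (hp : 1 ≤ p) {d : ℕ}
    (φ ψ : Fin d → X) : rhoP ρ p φ ψ ≤ rhoInf ρ φ ψ :=
  rhoP_le_of_forall_le hρ hp φ ψ (rhoInf_nonneg hρ φ ψ) fun j => le_rhoInf φ ψ j

lemma rhoP_mono {ρ' : X → X → ℝ} (hρ' : ∀ x y, 0 ≤ ρ' x y) (hle : ∀ x y, ρ' x y ≤ ρ x y)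
    {p : ℝ} (hp : 1 ≤ p) {d : ℕ} (φ ψ : Fin d → X) : rhoP ρ' p φ ψ ≤ rhoP ρ p φ ψ := by
  have hp0 : 0 < p := by linarith
  unfold rhoP
  apply Real.rpow_le_rpow
  · apply mul_nonneg (by positivity)
    exact Finset.sum_nonneg fun j _ => Real.rpow_nonneg (hρ' _ _) _
  · apply mul_le_mul_of_nonneg_left _ (by positivity)
    exact Finset.sum_le_sum fun j _ => Real.rpow_le_rpow (hρ' _ _) (hle _ _) hp0.le
  · positivity

/-- If `ρ_p(φ,ψ) < ε'`, then few coordinates have `ρ(φ(j),ψ(j)) ≥ r`. -/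
lemma card_bad_le (hρ : ∀ x y, 0 ≤ ρ x y) {p : ℝ} (hp : 1 ≤ p) {d : ℕ}
    (φ ψ : Fin d → X) {ε' r : ℝ} (hε' : 0 < ε') (hr : 0 < r) (h : rhoP ρ p φ ψ < ε') :
    ((Finset.univ.filter fun j => r ≤ ρ (φ j) (ψ j)).card : ℝ) ≤ d * (ε' / r) ^ p := by
  have hp0 : 0 < p := by linarith
  have hsum0 : 0 ≤ ∑ j, (ρ (φ j) (ψ j)) ^ p :=
    Finset.sum_nonneg fun j _ => Real.rpow_nonneg (hρ _ _) _
  have h1 : (1 / (d : ℝ)) * ∑ j, (ρ (φ j) (ψ j)) ^ p ≤ ε' ^ p := by
    have h2 : 0 ≤ (1 / (d : ℝ)) * ∑ j, (ρ (φ j) (ψ j)) ^ p :=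
      mul_nonneg (by positivity) hsum0
    have h3 : (rhoP ρ p φ ψ) ^ p = (1 / (d : ℝ)) * ∑ j, (ρ (φ j) (ψ j)) ^ p := by
      unfold rhoP
      rw [one_div p, Real.rpow_inv_rpow h2 hp0.ne']
    rw [← h3]
    exact Real.rpow_le_rpow (rhoP_nonneg hρ p φ ψ) h.le hp0.le
  have h4 : ((Finset.univ.filter fun j => r ≤ ρ (φ j) (ψ j)).card : ℝ) * r ^ p
      ≤ ∑ j, (ρ (φ j) (ψ j)) ^ p := by
    calc ((Finset.univ.filter fun j => r ≤ ρ (φ j) (ψ j)).card : ℝ) * r ^ p
        = ∑ _j ∈ Finset.univ.filter (fun j => r ≤ ρ (φ j) (ψ j)), r ^ p := by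
          rw [Finset.sum_const, nsmul_eq_mul]
      _ ≤ ∑ j ∈ Finset.univ.filter (fun j => r ≤ ρ (φ j) (ψ j)), (ρ (φ j) (ψ j)) ^ p := by
          apply Finset.sum_le_sum
          intro j hj
          rw [Finset.mem_filter] at hj
          exact Real.rpow_le_rpow hr.le hj.2 hp0.le
      _ ≤ ∑ j, (ρ (φ j) (ψ j)) ^ p := by
          apply Finset.sum_le_sum_of_subset_of_nonneg (Finset.filter_subset _ _)
          intro j _ _
          exact Real.rpow_nonneg (hρ _ _) _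
  have hrp : 0 < r ^ p := Real.rpow_pos_of_pos hr p
  rcases Nat.eq_zero_or_pos d with hd | hd
  · subst hd
    simp
  · have hd' : (0 : ℝ) < d := by exact_mod_cast hd
    rw [one_div, inv_mul_le_iff₀ hd'] at h1
    rw [Real.div_rpow hε'.le hr.le, ← mul_div_assoc, le_div_iff₀ hrp]
    exact h4.trans h1

end basic

/-! ### The combinatorial lemma -/

section comb

variable {X : Type u} {ρ : X → X → ℝ}

/-- Counting the points of an `ε`-separated set (for `ρ_∞`) in a small `ρ_p`-ball. -/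
lemma ball_card_le (hρ0 : ∀ x y, 0 ≤ ρ x y) (hρs : ∀ x y, ρ x y = ρ y x)
    (hρt : ∀ x y z, ρ x z ≤ ρ x y + ρ y z) {d : ℕ} {p : ℝ} (hp : 1 ≤ p)
    {ε ε' : ℝ} (hε : 0 < ε) (hε' : 0 < ε') {C : Type} [Fintype C] [Nonempty C]
    (c : X → C) (hc : ∀ x y, c x = c y → ρ x y < ε) {n : ℕ}
    (hn : d * (ε' / (ε / 4)) ^ p < n + 1) (w : Fin d → X)
    (Z : Finset (Fin d → X)) (hZ : ∀ z ∈ Z, ∀ w ∈ Z, z ≠ w → ε ≤ rhoInf ρ z w)
    (hZw : ∀ z ∈ Z, rhoP ρ p z w < ε') :
    Z.card ≤ 2 ^ d * (Fintype.card C) ^ n := by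
  classical
  have hr : 0 < ε / 4 := by positivity
  let B : (Fin d → X) → Finset (Fin d) := fun z => Finset.univ.filter fun j => ε / 4 ≤ ρ (z j) (w j)
  have hB : ∀ z ∈ Z, (B z).card ≤ n := by
    intro z hz
    have h1 := card_bad_le hρ0 hp z w hε' hr (hZw z hz)
    have h2 : ((B z).card : ℝ) < n + 1 := lt_of_le_of_lt h1 hn
    have h3 : (B z).card < n + 1 := by exact_mod_cast h2
    omega
  have hfib : ∀ b : Finset (Fin d), (Z.filter fun z => B z = b).card ≤ (Fintype.card C) ^ n := by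
    intro b
    rcases (Z.filter fun z => B z = b).eq_empty_or_nonempty with h | ⟨z0, hz0⟩
    · simp [h]
    · rw [Finset.mem_filter] at hz0
      have hb : b.card ≤ n := hz0.2 ▸ hB z0 hz0.1
      have h1 : (Z.filter fun z => B z = b).card ≤ Fintype.card (b → C) := by
        rw [← Finset.card_univ (α := b → C)]
        apply Finset.card_le_card_of_injOn (fun z => fun j : b => c (z j))
        · intro z _
          simp
        · intro z hz z' hz' hzz'
          rw [Finset.mem_coe, Finset.mem_filter] at hz hz'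
          by_contra hne
          have h2 := hZ z hz.1 z' hz'.1 hne
          have hd0 : Nonempty (Fin d) := by
            by_contra hcon
            rw [not_nonempty_iff] at hcon
            exact hne (Subsingleton.elim _ _)
          have h3 : rhoInf ρ z z' < ε := by
            unfold rhoInf
            obtain ⟨j, hj⟩ := exists_eq_ciSup_of_finite (f := fun j => ρ (z j) (z' j))
            rw [← hj]
            by_cases hjb : j ∈ b
            · have := congrFun hzz' ⟨j, hjb⟩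
              exact hc _ _ this
            · have h4 : ρ (z j) (w j) < ε / 4 := by
                have : j ∉ B z := hz.2 ▸ hjb
                simpa [B] using this
              have h5 : ρ (z' j) (w j) < ε / 4 := by
                have : j ∉ B z' := hz'.2 ▸ hjb
                simpa [B] using this
              have h6 := hρt (z j) (w j) (z' j)
              rw [hρs (w j) (z' j)] at h6
              linarith
          linarith
      refine h1.trans ?_
      rw [Fintype.card_fun, Fintype.card_coe]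
      exact Nat.pow_le_pow_right Fintype.card_pos hb
  calc Z.card = ∑ b : Finset (Fin d), (Z.filter fun z => B z = b).card :=
        Finset.card_eq_sum_card_fiberwise fun z _ => Finset.mem_coe.mpr (Finset.mem_univ _)
    _ ≤ ∑ _b : Finset (Fin d), (Fintype.card C) ^ n := Finset.sum_le_sum fun b _ => hfib b
    _ = 2 ^ d * (Fintype.card C) ^ n := by
        rw [Finset.sum_const, Finset.card_univ, Fintype.card_finset, Fintype.card_fin, smul_eq_mul]

/-- Passage from `ρ_p` to `ρ_∞`. -/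
lemma sep_card_le (hρ0 : ∀ x y, 0 ≤ ρ x y) (hρr : ∀ x, ρ x x = 0) (hρs : ∀ x y, ρ x y = ρ y x)
    (hρt : ∀ x y z, ρ x z ≤ ρ x y + ρ y z) {d : ℕ} {p : ℝ} (hp : 1 ≤ p)
    {ε ε' : ℝ} (hε : 0 < ε) (hε' : 0 < ε') {C : Type} [Fintype C] [Nonempty C]
    (c : X → C) (hc : ∀ x y, c x = c y → ρ x y < ε) {n : ℕ}
    (hn : d * (ε' / (ε / 4)) ^ p < n + 1)
    (Z : Finset (Fin d → X)) (hZ : ∀ z ∈ Z, ∀ w ∈ Z, z ≠ w → ε ≤ rhoInf ρ z w) :
    ∃ W ⊆ Z, (∀ z ∈ W, ∀ w ∈ W, z ≠ w → ε' ≤ rhoP ρ p z w) ∧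
      Z.card ≤ W.card * (2 ^ d * (Fintype.card C) ^ n) := by
  classical
  obtain ⟨W, hW, hmax⟩ := Finset.exists_max_image
    (Z.powerset.filter fun W => ∀ z ∈ W, ∀ w ∈ W, z ≠ w → ε' ≤ rhoP ρ p z w) Finset.card
    ⟨∅, by simp⟩
  rw [Finset.mem_filter, Finset.mem_powerset] at hW
  refine ⟨W, hW.1, hW.2, ?_⟩
  have hcov : ∀ z ∈ Z, ∃ w ∈ W, rhoP ρ p z w < ε' := by
    intro z hz
    by_contra hcon
    push Not at hcon
    have hzW : z ∉ W := fun h => by
      have := hcon z h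
      rw [rhoP_self hρr hp] at this
      linarith
    have h1 := hmax (insert z W) (by
      rw [Finset.mem_filter, Finset.mem_powerset]
      refine ⟨Finset.insert_subset hz hW.1, ?_⟩
      intro a ha b hb hab
      rw [Finset.mem_insert] at ha hb
      rcases ha with rfl | ha
      · rcases hb with rfl | hb
        · exact absurd rfl hab
        · exact hcon b hb
      · rcases hb with rfl | hb
        · rw [rhoP_symm hρs]
          exact hcon a ha
        · exact hW.2 a ha b hb hab)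
    rw [Finset.card_insert_of_notMem hzW] at h1
    omega
  have hsub : Z ⊆ W.biUnion fun w => Z.filter fun z => rhoP ρ p z w < ε' := by
    intro z hz
    obtain ⟨w, hw, hzw⟩ := hcov z hz
    rw [Finset.mem_biUnion]
    exact ⟨w, hw, Finset.mem_filter.mpr ⟨hz, hzw⟩⟩
  refine (Finset.card_le_card hsub).trans ?_
  apply Finset.card_biUnion_le_card_mul
  intro w _
  apply ball_card_le hρ0 hρs hρt hp hε hε' c hc hn w
  · intro z hz z' hz' hne
    exact hZ z (Finset.mem_filter.mp hz).1 z' (Finset.mem_filter.mp hz').1 hne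
  · intro z hz
    exact (Finset.mem_filter.mp hz).2

end comb

/-! ### The metric of tame growth -/

section tame

variable {X : Type u} [TopologicalSpace X] [CompactSpace X]

lemma exists_bound {ρ : X → X → ℝ} (hρ : IsContPseudometric ρ) : ∃ D : ℝ, 1 ≤ D ∧
    ∀ x y, ρ x y ≤ D := by
  obtain ⟨D, hD⟩ := (isCompact_range hρ.cont).bddAbove
  refine ⟨max D 1, le_max_right _ _, fun x y => le_trans (hD ⟨(x, y), rfl⟩) (le_max_left _ _)⟩

/-- Every continuous pseudometric `ρ` on a compact metrizable space dominates a continuous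
pseudometric `ρ'` with the same zero set, for which covering numbers are of tame growth. -/
lemma exists_tame [TopologicalSpace.SeparableSpace X] {ρ : X → X → ℝ}
    (hρ : IsContPseudometric ρ) :
    ∃ ρ' : X → X → ℝ, IsContPseudometric ρ' ∧ (∀ x y, ρ' x y ≤ ρ x y) ∧
      (∀ x y, ρ' x y = 0 → ρ x y = 0) ∧
      ∃ D : ℝ, 1 ≤ D ∧ ∀ ε : ℝ, 0 < ε → ∀ K : ℕ, D * (1 / 2) ^ K < ε →
        ∃ c : X → (Fin K → Fin (⌊D / ε⌋₊ + 1)), ∀ x y, c x = c y → ρ' x y ≤ ε := by
  obtain ⟨D, hD1, hD⟩ := exists_bound hρ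
  rcases isEmpty_or_nonempty X with hX | hX
  · refine ⟨ρ, hρ, fun x _ => le_rfl, fun x _ h => h, D, hD1, ?_⟩
    intro ε _ K _
    exact ⟨fun x => (hX.false x).elim, fun x => (hX.false x).elim⟩
  -- dense sequence
  let q : ℕ → X := TopologicalSpace.denseSeq X
  have hq : DenseRange q := TopologicalSpace.denseRange_denseSeq X
  have habs : ∀ x y z, |ρ x z - ρ y z| ≤ ρ x y := by
    intro x y z
    rw [abs_le]
    constructor
    · have := hρ.triangle y x z
      rw [hρ.symm y x] at this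
      linarith
    · have := hρ.triangle x y z
      linarith
  let g : X → X → ℕ → ℝ := fun x y k => (1 / 2) ^ k * |ρ x (q k) - ρ y (q k)|
  have hpow : ∀ k : ℕ, (0 : ℝ) < (1 / 2) ^ k ∧ ((1 : ℝ) / 2) ^ k ≤ 1 := fun k =>
    ⟨by positivity, pow_le_one₀ (by norm_num) (by norm_num)⟩
  have hg0 : ∀ x y k, 0 ≤ g x y k := fun x y k => by
    have := (hpow k).1
    positivity
  have hgle : ∀ x y k, g x y k ≤ ρ x y := fun x y k =>
    (mul_le_of_le_one_left (abs_nonneg _) (hpow k).2).trans (habs x y _)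
  have hbdd : ∀ x y, BddAbove (Set.range (g x y)) := fun x y =>
    ⟨ρ x y, by rintro _ ⟨k, rfl⟩; exact hgle x y k⟩
  let ρ' : X → X → ℝ := fun x y => ⨆ k, g x y k
  have hle : ∀ x y, ρ' x y ≤ ρ x y := fun x y => ciSup_le fun k => hgle x y k
  have hnn : ∀ x y, 0 ≤ ρ' x y := fun x y => Real.iSup_nonneg fun k => hg0 x y k
  have hrefl : ∀ x, ρ' x x = 0 := fun x =>
    le_antisymm ((hle x x).trans (hρ.refl x).le) (hnn x x)
  have hsymm : ∀ x y, ρ' x y = ρ' y x := fun x y => by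
    simp only [ρ', g]
    congr 1
    ext k
    rw [abs_sub_comm]
  have htri : ∀ x y z, ρ' x z ≤ ρ' x y + ρ' y z := by
    intro x y z
    apply ciSup_le
    intro k
    have h1 : g x y k ≤ ρ' x y := le_ciSup (hbdd x y) k
    have h2 : g y z k ≤ ρ' y z := le_ciSup (hbdd y z) k
    have h3 : g x z k ≤ g x y k + g y z k := by
      simp only [g]
      rw [← mul_add]
      apply mul_le_mul_of_nonneg_left _ (hpow k).1.le
      exact abs_sub_le _ _ _
    linarith
  have hcont : Continuous (fun r : X × X => ρ' r.1 r.2) := by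
    rw [continuous_iff_continuousAt]
    rintro ⟨x, y⟩
    have h1 : Tendsto (fun r : X × X => ρ r.1 x + ρ r.2 y) (𝓝 (x, y)) (𝓝 0) := by
      have h2 : Continuous (fun r : X × X => ρ r.1 x + ρ r.2 y) :=
        (hρ.cont.comp (continuous_fst.prodMk continuous_const)).add
          (hρ.cont.comp (continuous_snd.prodMk continuous_const))
      have h3 := h2.tendsto (x, y)
      simpa [hρ.refl] using h3
    rw [ContinuousAt, tendsto_iff_dist_tendsto_zero]
    apply squeeze_zero (fun _ => dist_nonneg) _ h1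
    rintro ⟨a, b⟩
    rw [Real.dist_eq, abs_le]
    have ha := hle a x
    have hb := hle b y
    have t1 := htri a x b
    have t2 := htri x y b
    have t3 := htri x a y
    have t4 := htri a b y
    rw [hsymm x a] at t3
    rw [hsymm y b] at t2
    constructor
    · simp only
      linarith
    · simp only
      linarith
  refine ⟨ρ', ⟨hnn, hrefl, hsymm, htri, hcont⟩, hle, ?_, D, hD1, ?_⟩
  · -- zero sets
    intro x y hxy
    have hk : ∀ k, ρ x (q k) = ρ y (q k) := by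
      intro k
      have h1 : g x y k ≤ 0 := (le_ciSup (hbdd x y) k).trans hxy.le
      have h2 : g x y k = 0 := le_antisymm h1 (hg0 x y k)
      simp only [g] at h2
      rcases mul_eq_zero.mp h2 with h3 | h3
      · exact absurd h3 (hpow k).1.ne'
      · exact sub_eq_zero.mp (abs_eq_zero.mp h3)
    have hz : ∀ z, ρ x z = ρ y z := by
      have h1 : (fun z => ρ x z) = (fun z => ρ y z) := by
        apply hq.equalizer
        · exact hρ.cont.comp (continuous_const.prodMk continuous_id)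
        · exact hρ.cont.comp (continuous_const.prodMk continuous_id)
        · ext k
          exact hk k
      exact fun z => congrFun h1 z
    rw [hz y, hρ.refl]
  · intro ε hε K hK
    have hlt : ∀ x k, ⌊(1 / 2) ^ k * ρ x (q k) / ε⌋₊ < ⌊D / ε⌋₊ + 1 := by
      intro x k
      apply Nat.lt_succ_of_le
      apply Nat.floor_le_floor
      apply div_le_div_of_nonneg_right _ hε.le
      exact (mul_le_of_le_one_left (hρ.nonneg _ _) (hpow k).2).trans (hD _ _)
    refine ⟨fun x k => ⟨⌊(1 / 2) ^ (k : ℕ) * ρ x (q k) / ε⌋₊, hlt x k⟩, ?_⟩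
    intro x y hxy
    apply ciSup_le
    intro k
    by_cases hkK : k < K
    · have h1 := congrFun hxy ⟨k, hkK⟩
      simp only [Fin.mk.injEq] at h1
      have h2 : |(1 / 2) ^ k * ρ x (q k) / ε - (1 / 2) ^ k * ρ y (q k) / ε| < 1 := by
        have a0 : 0 ≤ (1 / 2) ^ k * ρ x (q k) / ε :=
          div_nonneg (mul_nonneg (hpow k).1.le (hρ.nonneg _ _)) hε.le
        have b0 : 0 ≤ (1 / 2) ^ k * ρ y (q k) / ε :=
          div_nonneg (mul_nonneg (hpow k).1.le (hρ.nonneg _ _)) hε.le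
        have a1 := Nat.floor_le a0
        have a2 := Nat.lt_floor_add_one ((1 / 2) ^ k * ρ x (q k) / ε)
        have b1 := Nat.floor_le b0
        have b2 := Nat.lt_floor_add_one ((1 / 2) ^ k * ρ y (q k) / ε)
        rw [h1] at a1 a2
        rw [abs_lt]
        constructor <;> linarith
      rw [← sub_div, abs_div, abs_of_pos hε, div_lt_one hε, ← mul_sub, abs_mul,
        abs_of_pos (hpow k).1] at h2
      exact h2.le
    · push Not at hkK
      have h1 : g x y k ≤ (1 / 2) ^ k * D := by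
        simp only [g]
        apply mul_le_mul_of_nonneg_left _ (hpow k).1.le
        exact (habs x y _).trans (hD _ _)
      have h2 : ((1 : ℝ) / 2) ^ k ≤ (1 / 2) ^ K :=
        pow_le_pow_of_le_one (by norm_num) (by norm_num) hkK
      have h3 : (1 / 2) ^ k * D ≤ (1 / 2) ^ K * D :=
        mul_le_mul_of_nonneg_right h2 (by linarith)
      have h4 : D * (1 / 2) ^ K = (1 / 2) ^ K * D := mul_comm _ _
      linarith

/-- Uniform comparison of two continuous pseudometrics with the same zero set. -/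
lemma exists_modulus {ρ ρ' : X → X → ℝ} (hρ : IsContPseudometric ρ)
    (hρ' : IsContPseudometric ρ') (h0 : ∀ x y, ρ' x y = 0 → ρ x y = 0) {κ : ℝ} (hκ : 0 < κ) :
    ∃ κ' : ℝ, 0 < κ' ∧ ∀ x y, ρ' x y < κ' → ρ x y < κ := by
  have hcl : IsCompact {r : X × X | κ ≤ ρ r.1 r.2} :=
    (isClosed_le continuous_const hρ.cont).isCompact
  rcases Set.eq_empty_or_nonempty {r : X × X | κ ≤ ρ r.1 r.2} with h | h
  · refine ⟨1, one_pos, fun x y _ => ?_⟩
    by_contra hcon
    push Not at hcon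
    have : (x, y) ∈ {r : X × X | κ ≤ ρ r.1 r.2} := hcon
    rw [h] at this
    exact this
  · obtain ⟨r, hr, hmin⟩ := hcl.exists_isMinOn h hρ'.cont.continuousOn
    refine ⟨ρ' r.1 r.2, ?_, ?_⟩
    · rcases (hρ'.nonneg r.1 r.2).eq_or_lt with h1 | h1
      · have := h0 _ _ h1.symm
        have hr' : κ ≤ ρ r.1 r.2 := hr
        linarith
      · exact h1
    · intro x y hxy
      by_contra hcon
      push Not at hcon
      have : ρ' r.1 r.2 ≤ ρ' x y := hmin (show (x, y) ∈ {r : X × X | κ ≤ ρ r.1 r.2} from hcon)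
      linarith

/-- Inclusion of the spaces of approximately equivariant maps. -/
lemma mapSet_subset {G : Type v} [SMul G X] {ρ ρ' : X → X → ℝ} (hρ : IsContPseudometric ρ)
    (hρ' : IsContPseudometric ρ') (h0 : ∀ x y, ρ' x y = 0 → ρ x y = 0) {δ : ℝ} (hδ : 0 < δ) :
    ∃ δ' : ℝ, 0 < δ' ∧ ∀ (F : Finset G) (d : ℕ) (σ : G → Equiv.Perm (Fin d)),
      MapSet ρ' F δ' σ ⊆ MapSet ρ F δ σ := by
  obtain ⟨D, hD1, hD⟩ := exists_bound hρ
  obtain ⟨κ', hκ', hk⟩ := exists_modulus hρ hρ' h0 (κ := δ / 2) (by positivity)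
  refine ⟨δ * κ' / (2 * D), by positivity, ?_⟩
  intro F d σ φ hφ s hs
  have h1 := hφ s hs
  set a : Fin d → X := fun j => φ (σ s j)
  set b : Fin d → X := fun j => s • φ j
  have hρn := hρ.nonneg
  have hρn' := hρ'.nonneg
  unfold rhoP at h1 ⊢
  simp only [Real.rpow_ofNat] at h1 ⊢
  rw [← Real.sqrt_eq_rpow] at h1 ⊢
  rcases Nat.eq_zero_or_pos d with hd | hd
  · subst hd
    simp [hδ.le]
  have hd' : (0 : ℝ) < d := by exact_mod_cast hd
  rw [Real.sqrt_le_left hδ.le]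
  rw [Real.sqrt_le_left (by positivity)] at h1
  have hpt : ∀ j, ρ (a j) (b j) ^ 2 ≤ (δ / 2) ^ 2 + (D / κ') ^ 2 * ρ' (a j) (b j) ^ 2 := by
    intro j
    by_cases hj : ρ' (a j) (b j) < κ'
    · have h2 := hk _ _ hj
      have h3 : ρ (a j) (b j) ^ 2 ≤ (δ / 2) ^ 2 := pow_le_pow_left₀ (hρn _ _) h2.le 2
      have h4 : 0 ≤ (D / κ') ^ 2 * ρ' (a j) (b j) ^ 2 := by positivity
      linarith
    · push Not at hj
      have h2 : ρ (a j) (b j) ≤ D := hD _ _
      have h3 : ρ (a j) (b j) ^ 2 ≤ D ^ 2 := pow_le_pow_left₀ (hρn _ _) h2 2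
      have h4 : D ^ 2 ≤ (D / κ') ^ 2 * ρ' (a j) (b j) ^ 2 := by
        rw [← mul_pow]
        apply pow_le_pow_left₀ (by linarith)
        rw [div_mul_eq_mul_div, le_div_iff₀ hκ']
        exact mul_le_mul_of_nonneg_left hj (by linarith)
      have h5 : 0 ≤ (δ / 2) ^ 2 := by positivity
      linarith
  have hsum : ∑ j, ρ (a j) (b j) ^ 2 ≤ d * (δ / 2) ^ 2 + (D / κ') ^ 2 * ∑ j, ρ' (a j) (b j) ^ 2 := by
    calc ∑ j, ρ (a j) (b j) ^ 2 ≤ ∑ j, ((δ / 2) ^ 2 + (D / κ') ^ 2 * ρ' (a j) (b j) ^ 2) :=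
          Finset.sum_le_sum fun j _ => hpt j
      _ = _ := by
          rw [Finset.sum_add_distrib, ← Finset.mul_sum, Finset.sum_const, Finset.card_univ,
            Fintype.card_fin, nsmul_eq_mul]
  rw [one_div, inv_mul_le_iff₀ hd'] at h1 ⊢
  have hD0 : D ≠ 0 := by linarith
  have h6 : (D / κ') ^ 2 * ∑ j, ρ' (a j) (b j) ^ 2 ≤ (D / κ') ^ 2 * (d * (δ * κ' / (2 * D)) ^ 2) :=
    mul_le_mul_of_nonneg_left h1 (by positivity)
  have h7 : (D / κ') ^ 2 * (d * (δ * κ' / (2 * D)) ^ 2) = d * (δ / 2) ^ 2 := by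
    field_simp
  have h8 : (d : ℝ) * δ ^ 2 = 4 * (d * (δ / 2) ^ 2) := by ring
  have h9 : 0 ≤ (d : ℝ) * (δ / 2) ^ 2 := by positivity
  linarith

end tame

/-! ### Asymptotics -/

section asym

lemma tendsto_aux (A B : ℝ) {s : ℝ} (hs : 0 < s) :
    Tendsto (fun ε : ℝ => ε ^ s * (A + B * Real.log ε)) (𝓝[>] 0) (𝓝 0) := by
  have h1 : Tendsto (fun ε : ℝ => ε ^ s) (𝓝[>] 0) (𝓝 0) := by
    have h2 : Tendsto (fun ε : ℝ => ε ^ s) (𝓝 0) (𝓝 ((0 : ℝ) ^ s)) :=
      (Real.continuousAt_rpow_const 0 s (Or.inr hs.le)).tendsto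
    rw [Real.zero_rpow hs.ne'] at h2
    exact h2.mono_left nhdsWithin_le_nhds
  have h3 := tendsto_log_mul_rpow_nhdsGT_zero hs
  have h4 := (h1.mul_const A).add (h3.const_mul B)
  simp only [zero_mul, mul_zero, add_zero] at h4
  refine h4.congr fun ε => ?_
  ring

lemma asym {D p η γ : ℝ} (hD : 1 ≤ D) (hp : 1 ≤ p) (hη : 0 < η) (hγ : 0 < γ) :
    ∀ᶠ ε : ℝ in 𝓝[>] 0, Real.log 2 + (4 * ε ^ η) ^ p *
      ((Real.log (3 * D / ε) / Real.log 2 + 1) * Real.log (3 * D / ε)) ≤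
        γ * Real.log (1 / ε) := by
  have hp0 : 0 < p := by linarith
  have hs : 0 < η * p / 2 := by positivity
  have h1 := tendsto_aux (Real.log (3 * D) / Real.log 2 + 1) (-(1 / Real.log 2)) hs
  have h2 := tendsto_aux (Real.log (3 * D)) (-1) hs
  have h3 := ((h1.mul h2).const_mul ((4 : ℝ) ^ p))
  simp only [mul_zero] at h3
  have h4 : ∀ᶠ ε : ℝ in 𝓝[>] 0, (4 : ℝ) ^ p * (ε ^ (η * p / 2) *
      (Real.log (3 * D) / Real.log 2 + 1 + -(1 / Real.log 2) * Real.log ε) *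
      (ε ^ (η * p / 2) * (Real.log (3 * D) + -1 * Real.log ε))) < 1 :=
    h3.eventually (gt_mem_nhds one_pos)
  have h5 : ∀ᶠ ε : ℝ in 𝓝[>] 0, Real.log ε < -((Real.log 2 + 1) / γ) :=
    (Real.tendsto_log_nhdsGT_zero).eventually (eventually_lt_atBot _)
  have h6 : ∀ᶠ ε : ℝ in 𝓝[>] 0, 0 < ε := eventually_mem_nhdsWithin
  filter_upwards [h4, h5, h6] with ε h4 h5 h6
  have e1 : Real.log (3 * D / ε) = Real.log (3 * D) - Real.log ε :=
    Real.log_div (by positivity) h6.ne'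
  have e2 : (4 * ε ^ η) ^ p = (4 : ℝ) ^ p * (ε ^ (η * p / 2) * ε ^ (η * p / 2)) := by
    rw [Real.mul_rpow (by norm_num) (Real.rpow_nonneg h6.le _), ← Real.rpow_mul h6.le,
      ← Real.rpow_add h6]
    congr 2
    ring
  have e3 : Real.log (1 / ε) = -Real.log ε := by rw [one_div, Real.log_inv]
  rw [e1, e2, e3]
  have h7 : γ * (-Real.log ε) ≥ Real.log 2 + 1 := by
    have : (Real.log 2 + 1) / γ < -Real.log ε := by linarith
    rw [div_lt_iff₀ hγ] at this
    linarith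
  have h8 : (4 : ℝ) ^ p * (ε ^ (η * p / 2) * ε ^ (η * p / 2)) *
      (((Real.log (3 * D) - Real.log ε) / Real.log 2 + 1) * (Real.log (3 * D) - Real.log ε)) =
      (4 : ℝ) ^ p * (ε ^ (η * p / 2) *
      (Real.log (3 * D) / Real.log 2 + 1 + -(1 / Real.log 2) * Real.log ε) *
      (ε ^ (η * p / 2) * (Real.log (3 * D) + -1 * Real.log ε))) := by
    ring
  rw [h8]
  linarith

end asym

/-! ### Extended reals -/

section ereal

variable {A : Type u} {θ : A → A → ℝ} {ε : ℝ} {Y : Set A}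

lemma div_le_of_forall {c a : ℝ} (hc : 0 < c)
    (h : ∀ Z, IsSep θ ε Y Z → Z.Nonempty → Real.log Z.card ≤ a * c) :
    ENNReal.log (sepNum θ ε Y) / (c : EReal) ≤ (a : EReal) := by
  rw [EReal.div_le_iff_le_mul (by exact_mod_cast hc) (EReal.coe_ne_top _)]
  have h1 : sepNum θ ε Y ≤ ENNReal.ofReal (Real.exp (a * c)) := by
    unfold sepNum
    apply iSup₂_le
    intro Z hZ
    rcases Z.eq_empty_or_nonempty with h0 | h0
    · simp [h0]
    · have h2 := h Z hZ h0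
      have h3 : (0 : ℝ) < Z.card := by exact_mod_cast h0.card_pos
      rw [Real.log_le_iff_le_exp h3] at h2
      rw [← ENNReal.ofReal_natCast]
      exact ENNReal.ofReal_le_ofReal h2
  calc ENNReal.log (sepNum θ ε Y) ≤ ENNReal.log (ENNReal.ofReal (Real.exp (a * c))) :=
        ENNReal.log_monotone h1
    _ = ((Real.log (Real.exp (a * c)) : ℝ) : EReal) :=
        ENNReal.log_ofReal_of_pos (Real.exp_pos _)
    _ = (c : EReal) * (a : EReal) := by
        rw [Real.log_exp, ← EReal.coe_mul, mul_comm]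

lemma forall_of_div_le {c a : ℝ} (hc : 0 < c)
    (h : ENNReal.log (sepNum θ ε Y) / (c : EReal) ≤ (a : EReal)) :
    ∀ Z, IsSep θ ε Y Z → Z.Nonempty → Real.log Z.card ≤ a * c := by
  intro Z hZ h0
  rw [EReal.div_le_iff_le_mul (by exact_mod_cast hc) (EReal.coe_ne_top _)] at h
  have h1 : (Z.card : ENNReal) ≤ sepNum θ ε Y := by
    unfold sepNum
    exact le_iSup₂_of_le Z hZ le_rfl
  have h3 : (0 : ℝ) < Z.card := by exact_mod_cast h0.card_pos
  have h4 : ENNReal.log (Z.card : ENNReal) = ((Real.log Z.card : ℝ) : EReal) := by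
    rw [← ENNReal.ofReal_natCast]
    exact ENNReal.log_ofReal_of_pos h3
  have h5 := (ENNReal.log_monotone h1).trans h
  rw [h4, ← EReal.coe_mul, EReal.coe_le_coe_iff] at h5
  linarith [mul_comm c a]

end ereal

/-! ### The main comparison -/

section main

variable {G : Type v} [Group G] {X : Type u} [TopologicalSpace X]

/-- The estimate at one scale and for one sofic map. -/
lemma one_scale {ρ' : X → X → ℝ} (hρ' : IsContPseudometric ρ') {D : ℝ} (hD1 : 1 ≤ D)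
    (hcell : ∀ ε : ℝ, 0 < ε → ∀ K : ℕ, D * (1 / 2) ^ K < ε →
        ∃ c : X → (Fin K → Fin (⌊D / ε⌋₊ + 1)), ∀ x y, c x = c y → ρ' x y ≤ ε)
    {p η γ ε a : ℝ} (hp : 1 ≤ p) (hε : 0 < ε) (hε1 : ε < 1)
    (hasym : Real.log 2 + (4 * ε ^ η) ^ p *
      ((Real.log (3 * D / ε) / Real.log 2 + 1) * Real.log (3 * D / ε)) ≤
        γ * Real.log (1 / ε)) {d : ℕ} (Y : Set (Fin d → X))
    (hY : ∀ W, IsSep (rhoP ρ' p) (ε ^ (1 + η)) Y W → W.Nonempty →
      Real.log W.card ≤ a * (d * Real.log (1 / ε ^ (1 + η))))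
    (Z : Finset (Fin d → X)) (hZ : IsSep (rhoInf ρ') ε Y Z) (hZ0 : Z.Nonempty) :
    Real.log Z.card ≤ ((1 + η) * a + γ) * (d * Real.log (1 / ε)) := by
  have hlog2 : 0 < Real.log 2 := Real.log_pos (by norm_num)
  set t : ℝ := 2 * D / ε with ht
  have ht2 : 2 ≤ t := by
    rw [ht, le_div_iff₀ hε]
    nlinarith
  have ht0 : 0 < t := by linarith
  set K : ℕ := ⌊Real.log t / Real.log 2⌋₊ + 1 with hKdef
  have hK : D * (1 / 2) ^ K < ε / 2 := by
    have h1 : Real.log t / Real.log 2 < K := by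
      rw [hKdef]
      push_cast
      exact Nat.lt_floor_add_one _
    rw [div_lt_iff₀ hlog2, ← Real.log_pow] at h1
    have h2 : t < 2 ^ K := (Real.log_lt_log_iff ht0 (by positivity)).mp h1
    rw [ht, div_lt_iff₀ hε] at h2
    rw [one_div, inv_pow, ← div_eq_mul_inv, div_lt_iff₀ (by positivity)]
    linarith
  obtain ⟨c, hc⟩ := hcell (ε / 2) (by positivity) K hK
  have hε' : 0 < ε ^ (1 + η) := Real.rpow_pos_of_pos hε _
  have hθ : (ε ^ (1 + η) / (ε / 4)) ^ p = (4 * ε ^ η) ^ p := by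
    rw [Real.rpow_add hε, Real.rpow_one]
    congr 1
    field_simp
  set θ : ℝ := (4 * ε ^ η) ^ p with hθdef
  have hθ0 : 0 ≤ θ := by
    rw [hθdef]
    have := Real.rpow_nonneg hε.le η
    exact Real.rpow_nonneg (by positivity) _
  have hn : d * (ε ^ (1 + η) / (ε / 4)) ^ p < ⌊(d : ℝ) * θ⌋₊ + 1 := by
    rw [hθ]
    exact Nat.lt_floor_add_one _
  obtain ⟨W, hWZ, hWsep, hcard⟩ := sep_card_le hρ'.nonneg hρ'.refl hρ'.symm hρ'.triangle hp hε hε'
    c (fun x y h => lt_of_le_of_lt (hc x y h) (by linarith)) hn Z hZ.2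
  have hW0 : W.Nonempty := by
    by_contra hcon
    rw [Finset.not_nonempty_iff_eq_empty] at hcon
    have := hZ0.card_pos
    rw [hcon] at hcard
    simp at hcard
    rw [hcard] at this
    simp at this
  have hWlog := hY W ⟨fun z hz => hZ.1 z (hWZ hz), hWsep⟩ hW0
  have e1 : Real.log (1 / ε ^ (1 + η)) = (1 + η) * Real.log (1 / ε) := by
    rw [one_div, one_div, Real.log_inv, Real.log_inv, Real.log_rpow hε]
    ring
  rw [e1] at hWlog
  -- the cells
  have hcardC : Fintype.card (Fin K → Fin (⌊D / (ε / 2)⌋₊ + 1)) = (⌊D / (ε / 2)⌋₊ + 1) ^ K := by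
    simp
  rw [hcardC] at hcard
  have hm1 : ((⌊D / (ε / 2)⌋₊ + 1 : ℕ) : ℝ) ≤ 3 * D / ε := by
    push_cast
    have h1 : (⌊D / (ε / 2)⌋₊ : ℝ) ≤ D / (ε / 2) := Nat.floor_le (by positivity)
    have h2 : D / (ε / 2) = 2 * D / ε := by field_simp
    have h3 : (1 : ℝ) ≤ D / ε := by
      rw [le_div_iff₀ hε]
      linarith
    have h4 : 3 * D / ε = 2 * D / ε + D / ε := by ring
    linarith
  have hm0 : (0 : ℝ) < ((⌊D / (ε / 2)⌋₊ + 1 : ℕ) : ℝ) := by positivity
  have hm2 : Real.log ((⌊D / (ε / 2)⌋₊ + 1 : ℕ) : ℝ) ≤ Real.log (3 * D / ε) :=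
    Real.log_le_log hm0 hm1
  have hK1 : (K : ℝ) ≤ Real.log (3 * D / ε) / Real.log 2 + 1 := by
    rw [hKdef]
    push_cast
    have h1 : (⌊Real.log t / Real.log 2⌋₊ : ℝ) ≤ Real.log t / Real.log 2 :=
      Nat.floor_le (div_nonneg (Real.log_nonneg (by linarith)) hlog2.le)
    have h2 : Real.log t ≤ Real.log (3 * D / ε) := by
      apply Real.log_le_log ht0
      rw [ht]
      apply div_le_div_of_nonneg_right _ hε.le
      linarith
    have h3 : Real.log t / Real.log 2 ≤ Real.log (3 * D / ε) / Real.log 2 :=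
      div_le_div_of_nonneg_right h2 hlog2.le
    linarith
  have hl0 : 0 ≤ Real.log (3 * D / ε) := by
    apply Real.log_nonneg
    rw [le_div_iff₀ hε]
    linarith
  have hmlog0 : 0 ≤ Real.log ((⌊D / (ε / 2)⌋₊ + 1 : ℕ) : ℝ) := by
    apply Real.log_nonneg
    exact_mod_cast Nat.le_add_left 1 _
  have hlogC : K * Real.log ((⌊D / (ε / 2)⌋₊ + 1 : ℕ) : ℝ) ≤
      (Real.log (3 * D / ε) / Real.log 2 + 1) * Real.log (3 * D / ε) :=
    mul_le_mul hK1 hm2 hmlog0 (by positivity)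
  have hWc : (0 : ℝ) < W.card := by exact_mod_cast hW0.card_pos
  have hZc : (0 : ℝ) < Z.card := by exact_mod_cast hZ0.card_pos
  have hcard' : (Z.card : ℝ) ≤ W.card *
      (2 ^ d * (((⌊D / (ε / 2)⌋₊ + 1 : ℕ) : ℝ) ^ K) ^ ⌊(d : ℝ) * θ⌋₊) := by
    exact_mod_cast hcard
  have h10 : Real.log Z.card ≤ Real.log W.card + (d * Real.log 2 + (⌊(d : ℝ) * θ⌋₊ : ℝ) *
      (K * Real.log ((⌊D / (ε / 2)⌋₊ + 1 : ℕ) : ℝ))) := by
    refine (Real.log_le_log hZc hcard').trans (le_of_eq ?_)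
    rw [Real.log_mul hWc.ne' (by positivity), Real.log_mul (by positivity) (by positivity),
      Real.log_pow, Real.log_pow, Real.log_pow]
  have h11 : (⌊(d : ℝ) * θ⌋₊ : ℝ) ≤ d * θ := Nat.floor_le (by positivity)
  have h12 : (⌊(d : ℝ) * θ⌋₊ : ℝ) * (K * Real.log ((⌊D / (ε / 2)⌋₊ + 1 : ℕ) : ℝ)) ≤
      (d * θ) * ((Real.log (3 * D / ε) / Real.log 2 + 1) * Real.log (3 * D / ε)) :=
    mul_le_mul h11 hlogC (by positivity) (by positivity)
  have h13 : (d : ℝ) * (Real.log 2 + θ *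
      ((Real.log (3 * D / ε) / Real.log 2 + 1) * Real.log (3 * D / ε))) ≤
        d * (γ * Real.log (1 / ε)) :=
    mul_le_mul_of_nonneg_left hasym (Nat.cast_nonneg _)
  have h14 : ((1 + η) * a + γ) * (d * Real.log (1 / ε)) =
      a * (d * ((1 + η) * Real.log (1 / ε))) + d * (γ * Real.log (1 / ε)) := by ring
  rw [h14]
  have h15 : (d : ℝ) * (Real.log 2 + θ *
      ((Real.log (3 * D / ε) / Real.log 2 + 1) * Real.log (3 * D / ε))) =
      d * Real.log 2 + (d * θ) *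
        ((Real.log (3 * D / ε) / Real.log 2 + 1) * Real.log (3 * D / ε)) := by ring
  linarith

variable [CompactSpace X] [SMul G X]

/-- The comparison for the pair `ρ'`, `ρ`. -/
lemma mdim_le (S : SoficApprox G) {ρ ρ' : X → X → ℝ} (hρ : IsContPseudometric ρ)
    (hρ' : IsContPseudometric ρ') (hle : ∀ x y, ρ' x y ≤ ρ x y)
    (h0 : ∀ x y, ρ' x y = 0 → ρ x y = 0) {D : ℝ} (hD1 : 1 ≤ D)
    (hcell : ∀ ε : ℝ, 0 < ε → ∀ K : ℕ, D * (1 / 2) ^ K < ε →
        ∃ c : X → (Fin K → Fin (⌊D / ε⌋₊ + 1)), ∀ x y, c x = c y → ρ' x y ≤ ε)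
    {p : ℝ} (hp : 1 ≤ p) :
    mdimOf S ρ' (fun _ => rhoInf ρ') ≤ mdimOf S ρ (fun _ => rhoP ρ p) := by
  rw [← EReal.le_of_forall_lt_iff_le]
  intro z hz
  obtain ⟨a, ha1, ha2⟩ := EReal.lt_iff_exists_real_btwn.mp hz
  rw [EReal.coe_lt_coe_iff] at ha2
  -- choose `η` and `γ`
  obtain ⟨η, hη, hηa⟩ : ∃ η : ℝ, 0 < η ∧ (1 + η) * a < z := by
    have h1 : Tendsto (fun η : ℝ => (1 + η) * a) (𝓝[>] 0) (𝓝 ((1 + 0) * a)) := by
      have : Continuous (fun η : ℝ => (1 + η) * a) := by fun_prop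
      exact (this.tendsto 0).mono_left nhdsWithin_le_nhds
    rw [add_zero, one_mul] at h1
    have h2 : ∀ᶠ η : ℝ in 𝓝[>] 0, (1 + η) * a < z := h1.eventually (gt_mem_nhds ha2)
    have h3 : ∀ᶠ η : ℝ in 𝓝[>] 0, 0 < η := eventually_mem_nhdsWithin
    obtain ⟨η, h4, h5⟩ := (h3.and h2).exists
    exact ⟨η, h4, h5⟩
  set γ : ℝ := z - (1 + η) * a with hγdef
  have hγ : 0 < γ := by linarith
  have hzγ : (1 + η) * a + γ = z := by rw [hγdef]; ring
  -- frequently small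
  have hfreq := frequently_lt_of_liminf_lt (f := 𝓝[>] (0 : ℝ)) (by isBoundedDefault) ha1
  have htend : Tendsto (fun ε' : ℝ => ε' ^ (1 / (1 + η))) (𝓝[>] 0) (𝓝[>] 0) := by
    rw [tendsto_nhdsWithin_iff]
    constructor
    · have hpos : 0 < 1 / (1 + η) := by positivity
      have h2 : Tendsto (fun ε : ℝ => ε ^ (1 / (1 + η))) (𝓝 0) (𝓝 ((0 : ℝ) ^ (1 / (1 + η)))) :=
        (Real.continuousAt_rpow_const 0 _ (Or.inr hpos.le)).tendsto
      rw [Real.zero_rpow hpos.ne'] at h2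
      exact h2.mono_left nhdsWithin_le_nhds
    · have h6 : ∀ᶠ ε : ℝ in 𝓝[>] 0, 0 < ε := eventually_mem_nhdsWithin
      filter_upwards [h6] with ε hε
      exact Real.rpow_pos_of_pos hε _
  have hev : ∀ᶠ ε : ℝ in 𝓝[>] 0, 0 < ε ∧ ε < 1 ∧ Real.log 2 + (4 * ε ^ η) ^ p *
      ((Real.log (3 * D / ε) / Real.log 2 + 1) * Real.log (3 * D / ε)) ≤
        γ * Real.log (1 / ε) := by
    have h6 : ∀ᶠ ε : ℝ in 𝓝[>] 0, 0 < ε := eventually_mem_nhdsWithin
    have h7 : ∀ᶠ ε : ℝ in 𝓝[>] 0, ε < 1 := nhdsWithin_le_nhds (gt_mem_nhds one_pos)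
    filter_upwards [h6, h7, asym hD1 hp hη hγ] with ε h1 h2 h3
    exact ⟨h1, h2, h3⟩
  have hev0 : ∀ᶠ ε : ℝ in 𝓝[>] 0, 0 < ε := eventually_mem_nhdsWithin
  have hfreq2 := hfreq.and_eventually ((htend.eventually hev).and hev0)
  apply liminf_le_of_frequently_le'
  refine htend.frequently (hfreq2.mono ?_)
  rintro ε' ⟨hlt, ⟨hε, hε1, hasym⟩, hε'0⟩
  set ε : ℝ := ε' ^ (1 / (1 + η)) with hεdef
  have hεε' : ε ^ (1 + η) = ε' := by
    rw [hεdef, ← Real.rpow_mul hε'0.le]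
    rw [one_div_mul_cancel (by positivity), Real.rpow_one]
  have hε'1 : ε' < 1 := by
    rw [← hεε']
    exact Real.rpow_lt_one hε.le hε1 (by positivity)
  have hlogε : 0 < Real.log (1 / ε) := by
    apply Real.log_pos
    rw [lt_div_iff₀ hε]
    linarith
  have hlogε' : 0 < Real.log (1 / ε') := by
    apply Real.log_pos
    rw [lt_div_iff₀ hε'0]
    linarith
  rw [iInf_lt_iff] at hlt
  obtain ⟨F, hlt⟩ := hlt
  rw [iInf_lt_iff] at hlt
  obtain ⟨δ, hlt⟩ := hlt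
  rw [iInf_lt_iff] at hlt
  obtain ⟨hδ, hlt⟩ := hlt
  obtain ⟨δ', hδ', hsub⟩ := mapSet_subset (G := G) hρ hρ' h0 hδ
  have hev1 := eventually_lt_of_limsup_lt hlt
  refine iInf_le_of_le F (iInf₂_le_of_le δ' hδ' ?_)
  refine limsup_le_of_le (by isBoundedDefault) ?_
  filter_upwards [hev1, S.d_tendsto.eventually (eventually_gt_atTop 0)] with i hi hdi
  have hdi' : (0 : ℝ) < S.d i := by exact_mod_cast hdi
  apply div_le_of_forall (by positivity)
  intro Z hZ hZ0
  rw [← hzγ]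
  apply one_scale hρ' hD1 hcell hp hε hε1 hasym (MapSet ρ' F δ' (S.σ i)) _ Z hZ hZ0
  intro W hW hW0
  rw [hεε'] at hW ⊢
  have h5 := forall_of_div_le (c := (S.d i : ℝ) * Real.log (1 / ε')) (by positivity) hi.le
  refine h5 W ⟨fun w hw => hsub F _ _ (hW.1 w hw), ?_⟩ hW0
  intro w hw w' hw' hne
  exact (hW.2 w hw w' hw' hne).trans (rhoP_mono hρ'.nonneg hle hp w w')

/-- The trivial inequality. -/
lemma mdim_ge (S : SoficApprox G) {ρ : X → X → ℝ} (hρ : IsContPseudometric ρ)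
    {p : ℝ} (hp : 1 ≤ p) :
    mdimOf S ρ (fun _ => rhoP ρ p) ≤ mdimOf S ρ (fun _ => rhoInf ρ) := by
  unfold mdimOf
  refine liminf_le_liminf ?_ (by isBoundedDefault) (by isBoundedDefault)
  have h6 : ∀ᶠ ε : ℝ in 𝓝[>] 0, 0 < ε := eventually_mem_nhdsWithin
  have h7 : ∀ᶠ ε : ℝ in 𝓝[>] 0, ε < 1 := nhdsWithin_le_nhds (gt_mem_nhds one_pos)
  filter_upwards [h6, h7] with ε hε hε1
  have hlogε : 0 < Real.log (1 / ε) := by
    apply Real.log_pos
    rw [lt_div_iff₀ hε]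
    linarith
  refine iInf_mono fun F => iInf_mono fun δ => iInf_mono fun hδ => ?_
  refine limsup_le_limsup ?_ (by isBoundedDefault) (by isBoundedDefault)
  filter_upwards with i
  apply EReal.div_le_div_right_of_nonneg
  · exact_mod_cast (by positivity : (0 : ℝ) ≤ (S.d i : ℝ) * Real.log (1 / ε))
  · apply ENNReal.log_monotone
    unfold sepNum
    refine iSup_mono fun Z => iSup_le fun hZ => ?_
    refine le_iSup_of_le ⟨hZ.1, fun z hz w hw hne => (hZ.2 z hz w hw hne).trans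
      (rhoP_le_rhoInf hρ.nonneg hp z w)⟩ le_rfl

end main

/-- **Answer to Q1 (affirmative).** For every countable sofic group `G`, every sofic approximation
`S`, every `1 ≤ p < ∞` and every action of `G` by homeomorphisms on a compact metrizable space `X`,
`mdim_{Σ,M,p}(X,Γ) = mdim_{Σ,M}(X,Γ)`. -/
theorem result (G : Type v) [Group G] [Countable G] (S : SoficApprox G) (p : ℝ) (hp : 1 ≤ p)
    (X : Type u) [TopologicalSpace X] [CompactSpace X] [TopologicalSpace.MetrizableSpace X]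
    [MulAction G X] [ContinuousConstSMul G X] :
    mdimMP S p X = mdimMInf S X := by
  apply le_antisymm
  · unfold mdimMP mdimMInf
    refine iInf_mono fun ρ => iInf_mono fun hρ => ?_
    exact mdim_ge S hρ.1 hp
  · unfold mdimMP mdimMInf
    refine le_iInf₂ fun ρ hρ => ?_
    let _ : MetricSpace X := TopologicalSpace.metrizableSpaceMetric X
    have _ : TopologicalSpace.SeparableSpace X := inferInstance
    obtain ⟨ρ', hρ', hle, h0, D, hD1, hcell⟩ := exists_tame hρ.1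
    have hgen : DynGenerating G ρ' := by
      intro x y hxy
      obtain ⟨s, hs⟩ := hρ.2 x y hxy
      refine ⟨s, lt_of_le_of_ne (hρ'.nonneg _ _) fun h => ?_⟩
      have := h0 _ _ h.symm
      linarith
    exact iInf₂_le_of_le ρ' ⟨hρ', hgen⟩ (mdim_le S hρ.1 hρ' hle h0 hD1 hcell hp)

end Pool.Agent.Results.MP_9d0111_an.PMetricEquality
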